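import Mathlib

/-!
# Fractional majority colouring: `k* ≤ 32/9`

A digraph on a finite vertex set `V` is given by its out-neighbourhoods `N : V → Finset V` with
`v ∉ N v`.  We show that it always has a fractional majority colouring of total weight at most
`32/9`.

The proof is a random two-level colouring.  Give every vertex a random label in
`Fin 4 × Bool`: with probability `3/4` the vertex is in the set `R`, and then it keeps its random
colour; a vertex outside `R` looks at the colours of its out-neighbours in `R`, and if more than
half of all its out-neighbours are in `R` and have colour `c`, it takes the other colour; otherwise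
it keeps its random colour.  Let `T_c` be the set of the vertices of colour `c` for which at most
half of the out-neighbours have their colour, and `U_c` the set of the vertices of `R` of colour
`c` for which at most half of the out-neighbours are in `R` and of colour `c`.  All these sets are
stable.  Take `T_c` with weight `3` and `U_c` with weight `1`.  For fixed labels of the other
vertices, the eight labels of `v` give together weight at least `18` to the sets that contain `v`:
the gain that a vertex outside `R` makes by looking at its out-neighbours cancels exactly with the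
loss of the sets `U_c`.
-/

namespace Pool.Agent.Results.MP_e99367_co.UpperBound

open Finset

/-- The set `T` of vertices is stable in the digraph with out-neighbourhoods `N`: for every `v` in
`T`, at most half of the out-neighbours of `v` are in `T`. -/
def Stable {V : Type} [DecidableEq V] (N : V → Finset V) (T : Finset V) : Prop :=
  ∀ v ∈ T, 2 * (N v ∩ T).card ≤ (N v).card

/-- `x` is a fractional majority colouring of the digraph with out-neighbourhoods `N`: it gives
nonnegative weights to the stable sets (and weight `0` to all other sets), and for every vertex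
`v` the stable sets that contain `v` have total weight at least `1`. -/
structure IsFractionalMajorityColouring {V : Type} [Fintype V] [DecidableEq V]
    (N : V → Finset V) (x : Finset V → ℝ) : Prop where
  nonneg : ∀ T, 0 ≤ x T
  eq_zero : ∀ T, ¬ Stable N T → x T = 0
  cover : ∀ v, 1 ≤ ∑ T with v ∈ T, x T

/-- `k*`: the infimum of the real numbers `k` such that every finite digraph without loops has a
fractional majority colouring of total weight at most `k`. -/
noncomputable def kStar : ℝ :=
  sInf {k : ℝ | ∀ (V : Type) [Fintype V] [DecidableEq V] (N : V → Finset V), (∀ v, v ∉ N v) →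
    ∃ x : Finset V → ℝ, IsFractionalMajorityColouring N x ∧ ∑ T, x T ≤ k}

variable {V : Type} [Fintype V] [DecidableEq V]

/-- A weighted family of stable sets gives a fractional majority colouring. -/
theorem of_family {I : Type} [Fintype I] (N : V → Finset V) (S : I → Finset V)
    (hS : ∀ i, Stable N (S i)) (w : I → ℝ) (hw : ∀ i, 0 ≤ w i) (c : ℝ) (hc : 0 < c)
    (hcov : ∀ v, c ≤ ∑ i, if v ∈ S i then w i else 0) :
    ∃ x : Finset V → ℝ, IsFractionalMajorityColouring N x ∧ ∑ T, x T = (∑ i, w i) / c := by
  refine ⟨fun T => (∑ i, if S i = T then w i else 0) / c, ⟨?_, ?_, ?_⟩, ?_⟩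
  · intro T
    refine div_nonneg (Finset.sum_nonneg fun i _ => ?_) hc.le
    split_ifs
    · exact hw i
    · exact le_rfl
  · intro T hT
    have h0 : (∑ i, if S i = T then w i else 0) = 0 := by
      refine Finset.sum_eq_zero fun i _ => ?_
      rw [if_neg]
      rintro rfl
      exact hT (hS i)
    simp only [h0, zero_div]
  · intro v
    rw [← Finset.sum_div, le_div_iff₀ hc, one_mul, Finset.sum_comm]
    refine (hcov v).trans_eq (Finset.sum_congr rfl fun i _ => ?_)
    rw [Finset.sum_ite_eq]
    simp only [Finset.mem_filter, Finset.mem_univ, true_and]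
  · rw [← Finset.sum_div, Finset.sum_comm]
    congr 1
    refine Finset.sum_congr rfl fun i _ => ?_
    rw [Finset.sum_ite_eq]
    simp only [Finset.mem_univ, if_true]

/-- The number of the out-neighbours of `u` that are in `R` and have the colour `c`. -/
def cnt (N : V → Finset V) (ω : V → Fin 4 × Bool) (c : Bool) (u : V) : ℕ :=
  ((N u).filter fun w => (ω w).1 ≠ 3 ∧ (ω w).2 = c).card

/-- More than half of the out-neighbours of `u` are in `R` and of colour `c`. -/
def maj (N : V → Finset V) (ω : V → Fin 4 × Bool) (c : Bool) (u : V) : Prop :=
  (N u).card < 2 * cnt N ω c u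

instance (N : V → Finset V) (ω : V → Fin 4 × Bool) (c : Bool) (u : V) :
    Decidable (maj N ω c u) := by
  unfold maj; infer_instance

/-- The final colour of `u`. -/
def col (N : V → Finset V) (ω : V → Fin 4 × Bool) (u : V) : Bool :=
  if (ω u).1 ≠ 3 then (ω u).2 else if maj N ω true u then false
  else if maj N ω false u then true else (ω u).2

/-- The number of the out-neighbours of `u` with final colour `c`. -/
def num (N : V → Finset V) (ω : V → Fin 4 × Bool) (c : Bool) (u : V) : ℕ :=
  ((N u).filter fun w => col N ω w = c).card

/-- The sets `T_c`. -/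
def setT (N : V → Finset V) (ω : V → Fin 4 × Bool) (c : Bool) : Finset V :=
  univ.filter fun v => col N ω v = c ∧ 2 * num N ω c v ≤ (N v).card

/-- The sets `U_c`. -/
def setU (N : V → Finset V) (ω : V → Fin 4 × Bool) (c : Bool) : Finset V :=
  univ.filter fun v => ((ω v).1 ≠ 3 ∧ (ω v).2 = c) ∧ ¬ maj N ω c v

theorem stable_setT (N : V → Finset V) (ω : V → Fin 4 × Bool) (c : Bool) :
    Stable N (setT N ω c) := by
  intro v hv
  rw [setT, Finset.mem_filter] at hv
  have h : (N v ∩ setT N ω c).card ≤ num N ω c v := by
    refine Finset.card_le_card fun w hw => ?_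
    rw [Finset.mem_inter, setT, Finset.mem_filter] at hw
    exact Finset.mem_filter.2 ⟨hw.1, hw.2.2.1⟩
  have := hv.2.2
  omega

theorem stable_setU (N : V → Finset V) (ω : V → Fin 4 × Bool) (c : Bool) :
    Stable N (setU N ω c) := by
  intro v hv
  rw [setU, Finset.mem_filter] at hv
  have h : (N v ∩ setU N ω c).card ≤ cnt N ω c v := by
    refine Finset.card_le_card fun w hw => ?_
    rw [Finset.mem_inter, setU, Finset.mem_filter] at hw
    exact Finset.mem_filter.2 ⟨hw.1, hw.2.2.1⟩
  have := hv.2.2
  rw [maj] at this
  omega

section Update

variable {N : V → Finset V} (hN : ∀ v, v ∉ N v) (ω : V → Fin 4 × Bool) (v : V)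

include hN in
theorem cnt_update (l : Fin 4 × Bool) (c : Bool) :
    cnt N (Function.update ω v l) c v = cnt N ω c v := by
  unfold cnt
  congr 1
  refine Finset.filter_congr fun w hw => ?_
  have hwv : w ≠ v := by
    rintro rfl
    exact hN _ hw
  rw [Function.update_of_ne hwv]

include hN in
theorem maj_update (l : Fin 4 × Bool) (c : Bool) :
    maj N (Function.update ω v l) c v ↔ maj N ω c v := by
  unfold maj
  rw [cnt_update hN]

/-- Giving `v` the colour `true` instead of `false` can only increase the count for `true`. -/
theorem cnt_mono (j : Fin 4) (c : Bool) (w : V) :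
    cnt N (Function.update ω v (j, !c)) c w ≤ cnt N (Function.update ω v (j, c)) c w := by
  unfold cnt
  refine Finset.card_le_card fun u hu => ?_
  rw [Finset.mem_filter] at hu ⊢
  refine ⟨hu.1, ?_⟩
  by_cases huv : u = v
  · subst huv
    have := hu.2.2
    rw [Function.update_self] at this
    simp at this
  · have := hu.2
    rwa [Function.update_of_ne huv] at this ⊢

theorem maj_mono (j : Fin 4) (c : Bool) (w : V)
    (h : maj N (Function.update ω v (j, !c)) c w) : maj N (Function.update ω v (j, c)) c w := by
  unfold maj at h ⊢
  have := cnt_mono (N := N) ω v j c w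
  omega

/-- The final colours of the other vertices are antitone in the colour of `v`. -/
theorem col_anti (j : Fin 4) (w : V) (hwv : w ≠ v)
    (h : col N (Function.update ω v (j, true)) w = true) :
    col N (Function.update ω v (j, false)) w = true := by
  unfold col at h ⊢
  rw [Function.update_of_ne hwv] at h ⊢
  by_cases h3 : (ω w).1 ≠ 3
  · rw [if_pos h3] at h ⊢
    exact h
  · rw [if_neg h3] at h ⊢
    by_cases h1 : maj N (Function.update ω v (j, true)) true w
    · rw [if_pos h1] at h
      exact absurd h (by decide)
    · rw [if_neg h1] at h
      have h1' : ¬ maj N (Function.update ω v (j, false)) true w := fun h' =>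
        h1 (maj_mono ω v j true w h')
      rw [if_neg h1']
      by_cases h2 : maj N (Function.update ω v (j, false)) false w
      · rw [if_pos h2]
      · rw [if_neg h2]
        have h2' : ¬ maj N (Function.update ω v (j, true)) false w := fun h' =>
          h2 (maj_mono ω v j false w h')
        rw [if_neg h2'] at h
        exact h

include hN in
/-- For a vertex `v` in `R`, one of the two colours is good. -/
theorem good_pair (j : Fin 4) :
    (2 * num N (Function.update ω v (j, true)) true v ≤ (N v).card) ∨
      (2 * num N (Function.update ω v (j, false)) false v ≤ (N v).card) := by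
  have hsum : num N (Function.update ω v (j, true)) true v +
      num N (Function.update ω v (j, false)) false v ≤ (N v).card := by
    unfold num
    rw [← Finset.card_union_of_disjoint]
    · exact Finset.card_le_card (Finset.union_subset (Finset.filter_subset _ _)
        (Finset.filter_subset _ _))
    · rw [Finset.disjoint_left]
      intro w hw hw'
      rw [Finset.mem_filter] at hw hw'
      have hwv : w ≠ v := by
        rintro rfl
        exact hN _ hw.1
      have := col_anti (N := N) ω v j w hwv hw.2
      rw [this] at hw'
      exact absurd hw'.2 (by decide)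
  omega

/-- The coin of a vertex outside `R` does not influence the colours of the other vertices. -/
theorem cnt_coin (b b' : Bool) (c : Bool) (w : V) :
    cnt N (Function.update ω v (3, b)) c w = cnt N (Function.update ω v (3, b')) c w := by
  unfold cnt
  congr 1
  refine Finset.filter_congr fun u _ => ?_
  by_cases huv : u = v
  · subst huv
    simp only [Function.update_self]
    simp
  · simp only [Function.update_of_ne huv]

theorem col_coin (b b' : Bool) (w : V) (hwv : w ≠ v) :
    col N (Function.update ω v (3, b)) w = col N (Function.update ω v (3, b')) w := by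
  have h : ∀ c, maj N (Function.update ω v (3, b)) c w ↔ maj N (Function.update ω v (3, b')) c w := by
    intro c
    unfold maj
    rw [cnt_coin ω v b b' c w]
  unfold col
  simp only [h, Function.update_of_ne hwv]

include hN in
theorem num_coin (b b' : Bool) (c : Bool) :
    num N (Function.update ω v (3, b)) c v = num N (Function.update ω v (3, b')) c v := by
  unfold num
  congr 1
  refine Finset.filter_congr fun w hw => ?_
  have hwv : w ≠ v := by
    rintro rfl
    exact hN _ hw
  rw [col_coin ω v b b' w hwv]

end Update

theorem num_add (N : V → Finset V) (ω : V → Fin 4 × Bool) (v : V) :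
    num N ω true v + num N ω false v = (N v).card := by
  unfold num
  rw [← Finset.card_union_of_disjoint]
  · congr 1
    ext w
    simp only [Finset.mem_union, Finset.mem_filter, ← and_or_left]
    constructor
    · exact fun h => h.1
    · intro h
      refine ⟨h, ?_⟩
      cases col N ω w <;> simp
  · rw [Finset.disjoint_left]
    intro w hw hw'
    rw [Finset.mem_filter] at hw hw'
    rw [hw.2] at hw'
    exact absurd hw'.2 (by decide)

theorem cnt_le_num (N : V → Finset V) (ω : V → Fin 4 × Bool) (c : Bool) (v : V) :
    cnt N ω c v ≤ num N ω c v := by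
  unfold cnt num
  refine Finset.card_le_card fun w hw => ?_
  rw [Finset.mem_filter] at hw ⊢
  refine ⟨hw.1, ?_⟩
  unfold col
  rw [if_pos hw.2.1]
  exact hw.2.2

/-- The weight of the sets that contain `v`. -/
def gain (N : V → Finset V) (ω : V → Fin 4 × Bool) (v : V) : ℕ :=
  3 * (if v ∈ setT N ω true then 1 else 0) + 3 * (if v ∈ setT N ω false then 1 else 0) +
    ((if v ∈ setU N ω true then 1 else 0) + (if v ∈ setU N ω false then 1 else 0))

theorem mem_setT (N : V → Finset V) (ω : V → Fin 4 × Bool) (c : Bool) (v : V) :
    v ∈ setT N ω c ↔ col N ω v = c ∧ 2 * num N ω c v ≤ (N v).card := by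
  rw [setT, Finset.mem_filter]
  simp

theorem mem_setU (N : V → Finset V) (ω : V → Fin 4 × Bool) (c : Bool) (v : V) :
    v ∈ setU N ω c ↔ ((ω v).1 ≠ 3 ∧ (ω v).2 = c) ∧ ¬ maj N ω c v := by
  rw [setU, Finset.mem_filter]
  simp

/-- The two labels of `v` with first component `j ≠ 3`. -/
theorem gain_pair {N : V → Finset V} (hN : ∀ v, v ∉ N v) (ω : V → Fin 4 × Bool) (v : V)
    (j : Fin 4) (hj : j ≠ 3) :
    3 + ((if maj N ω true v then 0 else 1) + (if maj N ω false v then 0 else 1)) ≤
      gain N (Function.update ω v (j, true)) v + gain N (Function.update ω v (j, false)) v := by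
  have hc : ∀ b, col N (Function.update ω v (j, b)) v = b := by
    intro b
    unfold col
    rw [Function.update_self, if_pos hj]
  have hU : ∀ b, (v ∈ setU N (Function.update ω v (j, b)) b ↔ ¬ maj N ω b v) := by
    intro b
    rw [mem_setU, maj_update hN, Function.update_self]
    simp [hj]
  have h1 : (if maj N ω true v then 0 else 1) ≤
      (if v ∈ setU N (Function.update ω v (j, true)) true then 1 else 0) := by
    rw [if_congr (hU true) rfl rfl]
    split_ifs <;> simp
  have h2 : (if maj N ω false v then 0 else 1) ≤
      (if v ∈ setU N (Function.update ω v (j, false)) false then 1 else 0) := by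
    rw [if_congr (hU false) rfl rfl]
    split_ifs <;> simp
  have h3 : 1 ≤ (if v ∈ setT N (Function.update ω v (j, true)) true then 1 else 0) +
      (if v ∈ setT N (Function.update ω v (j, false)) false then 1 else 0) := by
    rcases good_pair hN ω v j with h | h
    · rw [if_pos ((mem_setT _ _ _ _).2 ⟨hc true, h⟩)]
      omega
    · rw [if_pos (c := v ∈ setT N (Function.update ω v (j, false)) false)
        ((mem_setT _ _ _ _).2 ⟨hc false, h⟩)]
      omega
  unfold gain
  omega

/-- The two labels of `v` with first component `3`. -/
theorem gain_last {N : V → Finset V} (hN : ∀ v, v ∉ N v) (ω : V → Fin 4 × Bool) (v : V) :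
    3 + (if maj N ω true v ∨ maj N ω false v then 3 else 0) ≤
      gain N (Function.update ω v (3, true)) v + gain N (Function.update ω v (3, false)) v := by
  have hcol : ∀ b, col N (Function.update ω v (3, b)) v =
      if maj N ω true v then false else if maj N ω false v then true else b := by
    intro b
    unfold col
    rw [Function.update_self, if_neg (by simp)]
    simp only [maj_update hN]
  have hnum : ∀ b c, num N (Function.update ω v (3, b)) c v =
      num N (Function.update ω v (3, true)) c v := fun b c => num_coin hN ω v b true c
  have hcnt : ∀ c, cnt N ω c v ≤ num N (Function.update ω v (3, true)) c v := by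
    intro c
    rw [← cnt_update hN ω v (3, true) c]
    exact cnt_le_num _ _ _ _
  have hadd := num_add N (Function.update ω v (3, true)) v
  have key : ∀ b c, col N (Function.update ω v (3, b)) v = c →
      2 * num N (Function.update ω v (3, true)) c v ≤ (N v).card →
      3 ≤ gain N (Function.update ω v (3, b)) v := by
    intro b c h1 h2
    rw [← hnum b c] at h2
    have h3 := (mem_setT N (Function.update ω v (3, b)) c v).2 ⟨h1, h2⟩
    unfold gain
    cases c
    · rw [if_pos (c := v ∈ setT N (Function.update ω v (3, b)) false) h3]
      omega
    · rw [if_pos h3]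
      omega
  by_cases hm1 : maj N ω true v
  · rw [if_pos (Or.inl hm1)]
    have hb : ∀ b, 3 ≤ gain N (Function.update ω v (3, b)) v := by
      intro b
      refine key b false ?_ ?_
      · rw [hcol, if_pos hm1]
      · have := hcnt true
        unfold maj at hm1
        omega
    have := hb true
    have := hb false
    omega
  · by_cases hm2 : maj N ω false v
    · rw [if_pos (Or.inr hm2)]
      have hb : ∀ b, 3 ≤ gain N (Function.update ω v (3, b)) v := by
        intro b
        refine key b true ?_ ?_
        · rw [hcol, if_neg hm1, if_pos hm2]
        · have := hcnt false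
          unfold maj at hm2
          omega
      have := hb true
      have := hb false
      omega
    · rw [if_neg (by tauto)]
      have hb : ∀ b, col N (Function.update ω v (3, b)) v = b := by
        intro b
        rw [hcol, if_neg hm1, if_neg hm2]
      have h4 : 2 * num N (Function.update ω v (3, true)) true v ≤ (N v).card ∨
          2 * num N (Function.update ω v (3, true)) false v ≤ (N v).card := by
        omega
      rcases h4 with h4 | h4
      · have := key true true (hb true) h4
        omega
      · have := key false false (hb false) h4
        omega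

theorem gain_sum {N : V → Finset V} (hN : ∀ v, v ∉ N v) (ω : V → Fin 4 × Bool) (v : V) :
    18 ≤ ∑ l : Fin 4 × Bool, gain N (Function.update ω v l) v := by
  rw [Fintype.sum_prod_type, Fin.sum_univ_four]
  simp only [Fintype.sum_bool]
  have h0 := gain_pair hN ω v 0 (by decide)
  have h1 := gain_pair hN ω v 1 (by decide)
  have h2 := gain_pair hN ω v 2 (by decide)
  have h3 := gain_last hN ω v
  by_cases hm1 : maj N ω true v
  · have hm2 : ¬ maj N ω false v := by
      intro hm2
      unfold maj at hm1 hm2
      have := cnt_le_num N ω true v
      have := cnt_le_num N ω false v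
      have := num_add N ω v
      omega
    rw [if_pos hm1, if_neg hm2] at h0 h1 h2
    rw [if_pos (Or.inl hm1)] at h3
    omega
  · by_cases hm2 : maj N ω false v
    · rw [if_neg hm1, if_pos hm2] at h0 h1 h2
      rw [if_pos (Or.inr hm2)] at h3
      omega
    · rw [if_neg hm1, if_neg hm2] at h0 h1 h2
      rw [if_neg (by tauto)] at h3
      omega

/-- Averaging over the label of `v`. -/
theorem sum_update (v : V) (F : (V → Fin 4 × Bool) → ℕ) :
    ∑ ω : V → Fin 4 × Bool, ∑ l : Fin 4 × Bool, F (Function.update ω v l) = 8 * ∑ ω, F ω := by
  have h : ∑ ω : V → Fin 4 × Bool, ∑ l : Fin 4 × Bool, F (Function.update ω v l) =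
      ∑ ω : V → Fin 4 × Bool, ∑ l : Fin 4 × Bool, F ω := by
    rw [← Fintype.sum_prod_type' (f := fun (ω : V → Fin 4 × Bool) (l : Fin 4 × Bool) =>
      F (Function.update ω v l)), ← Fintype.sum_prod_type' (f := fun (ω : V → Fin 4 × Bool)
      (_ : Fin 4 × Bool) => F ω)]
    let e : (V → Fin 4 × Bool) × (Fin 4 × Bool) ≃ (V → Fin 4 × Bool) × (Fin 4 × Bool) :=
      { toFun := fun p => (Function.update p.1 v p.2, p.1 v)
        invFun := fun p => (Function.update p.1 v p.2, p.1 v)
        left_inv := fun p => by simp
        right_inv := fun p => by simp }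
    exact Equiv.sum_comp e fun p => F p.1
  rw [h]
  simp [Finset.mul_sum, Finset.card_univ]

theorem gain_total {N : V → Finset V} (hN : ∀ v, v ∉ N v) (v : V) :
    18 * 8 ^ Fintype.card V ≤ 8 * ∑ ω : V → Fin 4 × Bool, gain N ω v := by
  rw [← sum_update v fun ω => gain N ω v]
  have h := Finset.sum_le_sum (s := (univ : Finset (V → Fin 4 × Bool)))
    fun ω _ => gain_sum hN ω v
  rw [Finset.sum_const, Finset.card_univ, Fintype.card_fun, Fintype.card_prod, Fintype.card_fin,
    Fintype.card_bool, smul_eq_mul] at h
  norm_num at h
  linarith

/-- Every digraph has a fractional majority colouring of total weight `32/9`. -/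
theorem exists_colouring (N : V → Finset V) (hN : ∀ v, v ∉ N v) :
    ∃ x : Finset V → ℝ, IsFractionalMajorityColouring N x ∧ ∑ T, x T = 32 / 9 := by
  obtain ⟨x, hx, hsum⟩ := of_family (I := (V → Fin 4 × Bool) × (Bool × Bool)) N
    (fun i => if i.2.1 then setT N i.1 i.2.2 else setU N i.1 i.2.2)
    (by
      intro i
      split_ifs
      · exact stable_setT N i.1 i.2.2
      · exact stable_setU N i.1 i.2.2)
    (fun i => if i.2.1 then 3 else 1)
    (by
      intro i
      split_ifs <;> norm_num)
    (18 * 8 ^ Fintype.card V / 8) (by positivity)
    (by
      intro v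
      have h := gain_total hN v
      have h' : (18 : ℝ) * 8 ^ Fintype.card V ≤
          8 * ∑ ω : V → Fin 4 × Bool, (gain N ω v : ℝ) := by exact_mod_cast h
      rw [Fintype.sum_prod_type]
      have h2 : ∀ ω : V → Fin 4 × Bool, (gain N ω v : ℝ) =
          ∑ q : Bool × Bool, if v ∈ (if q.1 then setT N ω q.2 else setU N ω q.2) then
            (if q.1 then (3 : ℝ) else 1) else 0 := by
        intro ω
        rw [Fintype.sum_prod_type]
        simp only [Fintype.sum_bool, if_true, Bool.false_eq_true, if_false]
        unfold gain
        push_cast
        split_ifs <;> norm_num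
      simp only [h2] at h'
      linarith)
  refine ⟨x, hx, hsum.trans ?_⟩
  rw [Fintype.sum_prod_type]
  have h3 : ∑ q : Bool × Bool, (if q.1 = true then (3 : ℝ) else 1) = 8 := by
    rw [Fintype.sum_prod_type]
    simp only [Fintype.sum_bool, if_true, Bool.false_eq_true, if_false]
    norm_num
  have h4 : ∑ _ω : V → Fin 4 × Bool, ∑ q : Bool × Bool, (if q.1 = true then (3 : ℝ) else 1) =
      8 ^ Fintype.card V * 8 := by
    rw [h3, Finset.sum_const, Finset.card_univ, Fintype.card_fun, Fintype.card_prod,
      Fintype.card_fin, Fintype.card_bool, nsmul_eq_mul]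
    norm_num
  rw [h4]
  have : (0 : ℝ) < 8 ^ Fintype.card V := by positivity
  field_simp
  norm_num

/-- Every finite digraph without loops has a fractional majority colouring of total weight at most
`32/9`; hence `k* ≤ 32/9`. -/
theorem result :
    (∀ (V : Type) [Fintype V] [DecidableEq V] (N : V → Finset V), (∀ v, v ∉ N v) →
      ∃ x : Finset V → ℝ, IsFractionalMajorityColouring N x ∧ ∑ T, x T ≤ 32 / 9) ∧
    kStar ≤ 32 / 9 := by
  have h : ∀ (V : Type) [Fintype V] [DecidableEq V] (N : V → Finset V), (∀ v, v ∉ N v) →
      ∃ x : Finset V → ℝ, IsFractionalMajorityColouring N x ∧ ∑ T, x T ≤ 32 / 9 := by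
    intro V _ _ N hN
    obtain ⟨x, hx, hs⟩ := exists_colouring N hN
    exact ⟨x, hx, hs.le⟩
  refine ⟨h, csInf_le ⟨0, ?_⟩ h⟩
  intro k hk
  obtain ⟨x, hx, hs⟩ := hk (Fin 0) (fun _ => ∅) (fun v => by simp)
  exact (Finset.sum_nonneg fun T _ => hx.nonneg T).trans hs

end Pool.Agent.Results.MP_e99367_co.UpperBound
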